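import Mathlib

set_option autoImplicit false

/-!
# Almost Golomb sequences: definition, existence and uniqueness
-/

namespace Pool.Agent.Q51.AG

open Finset

/-- The window sum `a(n) + a(n-1) + ... + a(n-r+1)`; the subtraction is truncated, so that terms
with an index `≤ 0` are replaced by `a 0`. -/
def s (r : ℕ) (a : ℕ → ℕ) (n : ℕ) : ℕ := ∑ i ∈ range r, a (n - i)

/-- `a 1 ≤ a 2 ≤ ...` are positive integers, `a 0 = 0` (this stands for `a k = 0` for all `k ≤ 0`), and
`a (a n + a (n - 1) + ... + a (n - r + 1)) = n` for all `n ≥ 1`. -/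
structure Sol (r : ℕ) (a : ℕ → ℕ) : Prop where
  zero : a 0 = 0
  pos : ∀ n, 1 ≤ n → 1 ≤ a n
  mono : ∀ n, a n ≤ a (n + 1)
  eq : ∀ n, 1 ≤ n → a (s r a n) = n

/-- The almost Golomb sequence of order `r`: the solution in which each term is as small as possible
given the previous terms, that is, the lexicographically least solution. -/
def IsAlmostGolomb (r : ℕ) (a : ℕ → ℕ) : Prop :=
  Sol r a ∧ ∀ b : ℕ → ℕ, Sol r b → b ≠ a → ∃ n, (∀ k < n, a k = b k) ∧ a n < b n

lemma s_step {r : ℕ} (hr : 1 ≤ r) (a : ℕ → ℕ) (n : ℕ) :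
    s r a (n + 1) + a (n + 1 - r) = s r a n + a (n + 1) := by
  unfold s
  obtain ⟨q, rfl⟩ : ∃ q, r = q + 1 := ⟨r - 1, by omega⟩
  rw [Finset.sum_range_succ' (fun i => a (n + 1 - i)), Finset.sum_range_succ (fun i => a (n - i))]
  have h1 : ∀ i, n + 1 - (i + 1) = n - i := fun i => by omega
  have h2 : n + 1 - (q + 1) = n - q := by omega
  simp only [h1, h2, Nat.sub_zero]
  ring

namespace Sol

variable {r : ℕ} {a : ℕ → ℕ}

lemma monotone (h : Sol r a) : Monotone a := monotone_nat_of_le_succ h.mono

lemma succ_le (h : Sol r a) (n : ℕ) : a (n + 1) ≤ a n + 1 := by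
  by_contra hc
  push Not at hc
  have h1 := h.eq (a n + 1) (by omega)
  rcases Nat.lt_or_ge (s r a (a n + 1)) (n + 1) with h2 | h2
  · have := h.monotone (Nat.lt_succ_iff.1 h2)
    omega
  · have := h.monotone h2
    omega

lemma one (h : Sol r a) (hr : 2 ≤ r) : a 1 = 1 := by
  have h1 : s r a 1 = a 1 := by
    unfold s
    obtain ⟨q, rfl⟩ : ∃ q, r = q + 1 := ⟨r - 1, by omega⟩
    rw [Finset.sum_range_succ' (fun i => a (1 - i))]
    have : ∀ i, a (1 - (i + 1)) = 0 := fun i => by
      have : 1 - (i + 1) = 0 := by omega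
      rw [this]; exact h.zero
    rw [Finset.sum_eq_zero (fun i _ => this i)]
    simp
  have h2 := h.eq 1 le_rfl
  rw [h1] at h2
  have h3 := h.pos 1 le_rfl
  have h4 := h.monotone h3
  omega

lemma s_two (h : Sol r a) (hr : 2 ≤ r) : s r a 2 = a 2 + 1 := by
  have h0 := s_step (by omega : 1 ≤ r) a 0
  have h1 := s_step (by omega : 1 ≤ r) a 1
  have hs0 : s r a 0 = 0 := by
    unfold s
    apply Finset.sum_eq_zero
    intro i _
    rw [Nat.zero_sub]; exact h.zero
  have e0 : 0 + 1 - r = 0 := by omega
  have e1 : 1 + 1 - r = 0 := by omega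
  rw [e0, hs0, h.zero] at h0
  rw [e1, h.zero] at h1
  have := h.one hr
  simp only [zero_add, add_zero, Nat.reduceAdd] at h0 h1
  omega

lemma two (h : Sol r a) (hr : 2 ≤ r) : a 2 = 2 := by
  have h1 := h.eq 2 (by omega)
  rw [h.s_two hr] at h1
  have h2 := h.succ_le 1
  have h3 := h.one hr
  have h4 := h.pos 2 (by omega)
  simp only [Nat.reduceAdd] at h2
  by_contra hc
  have h5 : a 2 = 1 := by omega
  rw [h5] at h1
  simp only [Nat.reduceAdd] at h1
  omega

lemma three (h : Sol r a) (hr : 2 ≤ r) : a 3 = 2 := by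
  have h1 := h.eq 2 (by omega)
  rw [h.s_two hr, h.two hr] at h1
  exact h1

lemma s_zero (h : Sol r a) : s r a 0 = 0 := by
  unfold s
  apply Finset.sum_eq_zero
  intro i _
  rw [Nat.zero_sub]; exact h.zero

lemma lt_self (h : Sol r a) (hr : 2 ≤ r) {n : ℕ} (hn : 3 ≤ n) : a n + 1 ≤ n := by
  induction n, hn using Nat.le_induction with
  | base => rw [h.three hr]
  | succ n hn ih => have := h.succ_le n; omega

end Sol

/-- a solution in which `s m` is the first index with value `m`, for all `m ≥ 3` -/
structure FO (r : ℕ) (a : ℕ → ℕ) : Prop extends Sol r a where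
  first : ∀ m, 3 ≤ m → ∀ x, x < s r a m → a x < m

/-- a solution with first occurrences at the window sums is lexicographically least -/
lemma FO.isAlmostGolomb {r : ℕ} (hr : 2 ≤ r) {a : ℕ → ℕ} (h : FO r a) : IsAlmostGolomb r a := by
  refine ⟨h.toSol, fun b hb hne => ?_⟩
  have hex : ∃ n, a n ≠ b n := by
    by_contra hc
    push Not at hc
    exact hne (funext fun n => (hc n).symm)
  classical
  let n := Nat.find hex
  have hn : a n ≠ b n := Nat.find_spec hex
  have hlt : ∀ k < n, a k = b k := fun k hk => by
    have := Nat.find_min hex hk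
    push Not at this
    exact this
  refine ⟨n, hlt, ?_⟩
  by_contra hc
  have hba : b n < a n := lt_of_le_of_ne (not_lt.1 hc) (Ne.symm hn)
  have h0 : n ≠ 0 := by
    intro h0; rw [h0, h.zero, hb.zero] at hn; exact hn rfl
  have h1 : n ≠ 1 := by
    intro h0; rw [h0, h.one hr, hb.one hr] at hn; exact hn rfl
  have h2 : n ≠ 2 := by
    intro h0; rw [h0, h.two hr, hb.two hr] at hn; exact hn rfl
  have h3 : n ≠ 3 := by
    intro h0; rw [h0, h.three hr, hb.three hr] at hn; exact hn rfl
  obtain ⟨m, hm⟩ : ∃ m, n = m + 1 := ⟨n - 1, by omega⟩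
  have h4 : a n ≤ a m + 1 := by rw [hm]; exact h.succ_le m
  have h5 : b m ≤ b n := by rw [hm]; exact hb.mono m
  have h6 : a m = b m := hlt m (by omega)
  have h7 : a n = a m + 1 := by omega
  have h8 : b n = a m := by omega
  have h9 : a m + 1 ≤ m := h.lt_self hr (by omega)
  have hge : 3 ≤ a m + 1 := by
    have : 2 ≤ a m := by
      have := h.monotone (show 2 ≤ m by omega)
      rw [h.two hr] at this
      exact this
    omega
  -- `n` is the first index with value `a m + 1`
  have h10 : s r a (a m + 1) ≤ n := by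
    by_contra hlt'
    have := h.first (a m + 1) hge n (by omega)
    omega
  have h11 : n ≤ s r a (a m + 1) := by
    by_contra hlt'
    have h12 : s r a (a m + 1) ≤ m := by omega
    have := h.monotone h12
    rw [h.eq _ (by omega)] at this
    omega
  have h12 : s r b (a m + 1) = s r a (a m + 1) := by
    unfold s
    apply Finset.sum_congr rfl
    intro i _
    exact (hlt _ (by omega)).symm
  have h13 := hb.eq (a m + 1) (by omega)
  rw [h12, le_antisymm h10 h11] at h13
  omega

lemma IsAlmostGolomb.unique {r : ℕ} {a b : ℕ → ℕ} (ha : IsAlmostGolomb r a)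
    (hb : IsAlmostGolomb r b) : a = b := by
  by_contra hne
  obtain ⟨n, h1, h2⟩ := ha.2 b hb.1 (Ne.symm hne)
  obtain ⟨m, h3, h4⟩ := hb.2 a ha.1 hne
  rcases lt_trichotomy n m with h | h | h
  · have := h3 n h; omega
  · subst h; omega
  · have := h1 m h; omega

/-! ### Construction -/

/-- values up to `n + 3` -/
def F (r : ℕ) : ℕ → ℕ → ℕ
  | 0 => fun k => if k = 0 then 0 else if k = 1 then 1 else if k ≤ 3 then 2 else 0
  | (n + 1) => fun k => if k = n + 4 then
      (if ∑ i ∈ range r, F r n (F r n (n + 3) + 1 - i) = n + 4 then F r n (n + 3) + 1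
        else F r n (n + 3)) else F r n k

/-- the almost Golomb sequence -/
def ag (r : ℕ) (n : ℕ) : ℕ := F r n n

lemma F_eq (r : ℕ) (n k : ℕ) (h : k ≤ n + 3) : F r (n + 1) k = F r n k := by
  show (if k = n + 4 then _ else F r n k) = _
  rw [if_neg (by omega)]

lemma F_eq' (r : ℕ) (n m k : ℕ) (h : k ≤ n + 3) (hm : n ≤ m) : F r m k = F r n k := by
  induction m, hm using Nat.le_induction with
  | base => rfl
  | succ m hm ih => rw [F_eq r m k (by omega), ih]

lemma F_ag (r : ℕ) (n k : ℕ) (h : k ≤ n + 3) : F r n k = ag r k := by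
  unfold ag
  rcases le_total k n with h1 | h1
  · exact F_eq' r k n k (by omega) h1
  · exact (F_eq' r n k k h h1).symm

lemma ag_small (r : ℕ) : ag r 0 = 0 ∧ ag r 1 = 1 ∧ ag r 2 = 2 ∧ ag r 3 = 2 := by
  refine ⟨?_, ?_, ?_, ?_⟩
  · rw [← F_ag r 0 0 (by omega)]; rfl
  · rw [← F_ag r 0 1 (by omega)]; rfl
  · rw [← F_ag r 0 2 (by omega)]; rfl
  · rw [← F_ag r 0 3 (by omega)]; rfl

lemma ag_le (r : ℕ) (n : ℕ) (hn : 3 ≤ n) : ag r n + 1 ≤ n := by
  induction n, hn using Nat.le_induction with
  | base => rw [(ag_small r).2.2.2]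
  | succ n hn ih =>
    obtain ⟨m, rfl⟩ : ∃ m, n = m + 3 := ⟨n - 3, by omega⟩
    have h1 : ag r (m + 3 + 1) = F r (m + 1) (m + 4) := (F_ag r (m + 1) (m + 4) (by omega)).symm
    rw [h1]
    show (if m + 4 = m + 4 then _ else _) + 1 ≤ _
    rw [if_pos rfl, F_ag r m (m + 3) (by omega)]
    split_ifs <;> omega

lemma ag_succ (r : ℕ) (n : ℕ) (hn : 3 ≤ n) :
    ag r (n + 1) = if s r (ag r) (ag r n + 1) = n + 1 then ag r n + 1 else ag r n := by
  obtain ⟨m, rfl⟩ : ∃ m, n = m + 3 := ⟨n - 3, by omega⟩
  have h1 : ag r (m + 3 + 1) = F r (m + 1) (m + 4) := (F_ag r (m + 1) (m + 4) (by omega)).symm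
  rw [h1]
  show (if m + 4 = m + 4 then _ else _) = _
  rw [if_pos rfl]
  have h2 : F r m (m + 3) = ag r (m + 3) := F_ag r m (m + 3) (by omega)
  rw [h2]
  have h3 : ∑ i ∈ range r, F r m (ag r (m + 3) + 1 - i) = s r (ag r) (ag r (m + 3) + 1) := by
    unfold s
    apply Finset.sum_congr rfl
    intro i _
    apply F_ag
    have := ag_le r (m + 3) (by omega)
    omega
  rw [h3]

lemma ag_succ_le (r : ℕ) (n : ℕ) : ag r (n + 1) ≤ ag r n + 1 := by
  obtain ⟨h0, h1, h2, h3⟩ := ag_small r
  rcases Nat.lt_or_ge n 3 with h | h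
  · interval_cases n <;> simp [h0, h1, h2, h3]
  · rw [ag_succ r n h]; split_ifs <;> omega

lemma ag_mono (r : ℕ) : Monotone (ag r) := by
  apply monotone_nat_of_le_succ
  intro n
  obtain ⟨h0, h1, h2, h3⟩ := ag_small r
  rcases Nat.lt_or_ge n 3 with h | h
  · interval_cases n <;> simp [h0, h1, h2, h3]
  · rw [ag_succ r n h]; split_ifs <;> omega

lemma s_zero' (r : ℕ) : s r (ag r) 0 = 0 := by
  unfold s
  apply Finset.sum_eq_zero
  intro i _
  rw [Nat.zero_sub]; exact (ag_small r).1

lemma s_small {r : ℕ} (hr : 2 ≤ r) : s r (ag r) 1 = 1 ∧ s r (ag r) 2 = 3 ∧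
    4 ≤ s r (ag r) 3 ∧ s r (ag r) 3 ≤ 5 ∧ s r (ag r) 3 ≤ r + 2 := by
  obtain ⟨h0, h1, h2, h3⟩ := ag_small r
  have g0 := s_step (by omega : 1 ≤ r) (ag r) 0
  have g1 := s_step (by omega : 1 ≤ r) (ag r) 1
  have g2 := s_step (by omega : 1 ≤ r) (ag r) 2
  have e0 : 0 + 1 - r = 0 := by omega
  have e1 : 1 + 1 - r = 0 := by omega
  rw [e0, s_zero', h0] at g0
  rw [e1, h0] at g1
  simp only [zero_add, add_zero, Nat.reduceAdd, h1, h2, h3] at g0 g1 g2
  have : ag r (3 - r) ≤ 1 := by
    have := ag_mono r (show 3 - r ≤ 1 by omega)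
    rw [h1] at this; exact this
  refine ⟨by omega, by omega, by omega, by omega, ?_⟩
  rcases Nat.lt_or_ge r 3 with hr3 | hr3
  · have : r = 2 := by omega
    subst this
    simp only [Nat.reduceSub, h1] at g2
    omega
  · omega

/-- the main invariant of the construction -/
lemma invariant {r : ℕ} (hr : 2 ≤ r) (n : ℕ) (hn : 3 ≤ n) :
    n < s r (ag r) (ag r n + 1) ∧ (3 ≤ ag r n → s r (ag r) (ag r n) ≤ n) ∧
      (∀ x, 1 ≤ x → x + r ≤ n → ag r x < ag r (x + r)) := by
  obtain ⟨h0, h1, h2, h3⟩ := ag_small r
  induction n, hn using Nat.le_induction with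
  | base =>
    rw [h3]
    refine ⟨by have := s_small hr; show 3 < s r (ag r) 3; omega, by omega, fun x hx hxr => ?_⟩
    have h4 : x = 1 := by omega
    have h5 : r = 2 := by omega
    subst h4; subst h5
    show ag 2 1 < ag 2 3
    rw [h1, h3]; norm_num
  | succ n hn ih =>
    obtain ⟨i1, i2, i3⟩ := ih
    have hle := ag_le r n hn
    -- the third statement
    have j3 : ∀ x, 1 ≤ x → x + r ≤ n + 1 → ag r x < ag r (x + r) := by
      intro x hx hxr
      rcases Nat.lt_or_ge (x + r) (n + 1) with h | h
      · exact i3 x hx (by omega)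
      have hxr' : x + r = n + 1 := le_antisymm hxr h
      rw [hxr']
      by_contra hc
      push Not at hc
      have hx1 : ag r x = ag r (n + 1) := le_antisymm (ag_mono r (by omega)) hc
      -- all of `x, ..., n + 1` have the same value `w`
      set w := ag r x with hw
      have hxn : ag r n = w := by
        apply le_antisymm
        · have := ag_mono r (show n ≤ n + 1 by omega); omega
        · exact ag_mono r (by omega)
      -- next occurrence
      have hs : s r (ag r) (w + 1) ≠ n + 1 := by
        intro he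
        have := ag_succ r n hn
        rw [hxn, if_pos he] at this
        omega
      rw [hxn] at i1 i2
      rcases Nat.lt_or_ge w 3 with hw3 | hw3
      · -- w = 1 or 2
        have hw1 : 1 ≤ w := by
          have := ag_mono r hx
          rw [h1] at this; exact this
        have hn2 : 2 ≤ ag r n := by
          have := ag_mono r (show 2 ≤ n by omega)
          rw [h2] at this; exact this
        have hw2 : w = 2 := by omega
        have hx2 : 2 ≤ x := by
          by_contra hx2
          have : x = 1 := by omega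
          rw [this, h1] at hw
          omega
        have := s_small hr
        rw [hw2] at i1 hs
        simp only [Nat.reduceAdd] at i1 hs
        omega
      · have h4 := i2 hw3
        have h5 := s_step (by omega : 1 ≤ r) (ag r) w
        -- the block of `w` started at `s w`
        have h6 : s r (ag r) w ≤ x := by
          -- otherwise `ag (s w - 1) = w` contradicts the construction
          by_contra hlt
          push Not at hlt
          have h7 : ag r (s r (ag r) w - 1) = w := by
            apply le_antisymm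
            · have := ag_mono r (show s r (ag r) w - 1 ≤ n by omega)
              rw [hxn] at this; exact this
            · exact ag_mono r (by omega)
          -- first index with value `w`
          have hex : ∃ y, ag r y = w := ⟨x, rfl⟩
          classical
          let y := Nat.find hex
          have hy : ag r y = w := Nat.find_spec hex
          have hymin : ∀ z < y, ag r z ≠ w := fun z hz => Nat.find_min hex hz
          have hyx : y ≤ x := Nat.find_min' hex rfl
          have hy4 : 4 ≤ y := by
            by_contra hy4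
            have : y ≤ 3 := by omega
            have := ag_mono r this
            rw [h3] at this
            omega
          obtain ⟨z, hz⟩ : ∃ z, y = z + 1 := ⟨y - 1, by omega⟩
          have h8 := ag_succ r z (by omega)
          rw [← hz, hy] at h8
          have h9 : ag r z ≠ w := hymin z (by omega)
          split_ifs at h8 with h10
          · rw [← h8] at h10
            omega
          · exact h9 h8.symm
        have h7 : ag r (w + 1) ≤ ag r (w + 1 - r) + r := by
          have : ∀ j k, ag r (j + k) ≤ ag r j + k := by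
            intro j k
            induction k with
            | zero => simp
            | succ k ih => have := ag_succ_le r (j + k); rw [← add_assoc]; omega
          rcases Nat.lt_or_ge (w + 1) r with h8 | h8
          · have := this 0 (w + 1)
            rw [h0, zero_add] at this
            omega
          · have := this (w + 1 - r) r
            rwa [Nat.sub_add_cancel h8] at this
        omega
    refine ⟨?_, ?_, j3⟩
    · rw [ag_succ r n hn]
      split_ifs with he
      · -- `n + 1 = s (v + 1) < s (v + 2)`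
        have h4 := s_step (by omega : 1 ≤ r) (ag r) (ag r n + 1)
        have h5 : ag r (ag r n + 1 + 1 - r) < ag r (ag r n + 1 + 1) := by
          rcases Nat.lt_or_ge r (ag r n + 1 + 1) with h6 | h6
          · have := j3 (ag r n + 1 + 1 - r) (by omega) (by omega)
            rwa [Nat.sub_add_cancel (by omega)] at this
          · have e : ag r n + 1 + 1 - r = 0 := by omega
            rw [e, h0]
            have := ag_mono r (show 1 ≤ ag r n + 1 + 1 by omega)
            omega
        omega
      · omega
    · rw [ag_succ r n hn]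
      split_ifs with he
      · intro _; omega
      · intro h; have := i2 h; omega

theorem ag_FO {r : ℕ} (hr : 2 ≤ r) : FO r (ag r) := by
  obtain ⟨h0, h1, h2, h3⟩ := ag_small r
  -- unboundedness
  have hub : ∀ m, ∃ n, m ≤ ag r n := by
    intro m
    by_contra hc
    push Not at hc
    -- bounded monotone: eventually constant
    have hbd : BddAbove (Set.range (ag r)) := ⟨m, by rintro _ ⟨n, rfl⟩; exact (hc n).le⟩
    obtain ⟨n, hn⟩ : ∃ n, ∀ k, n ≤ k → ag r k = ag r n := by
      have hex : ∃ v, ∀ k, ag r k ≤ v := ⟨m, fun k => (hc k).le⟩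
      classical
      let v := Nat.find hex
      have hv : ∀ k, ag r k ≤ v := Nat.find_spec hex
      by_contra hcc
      push Not at hcc
      have hv0 : v ≠ 0 := by
        intro hv0
        have := hv 1
        rw [h1] at this
        omega
      have := Nat.find_min hex (show v - 1 < v by omega)
      push Not at this
      obtain ⟨k, hk⟩ := this
      obtain ⟨l, hl1, hl2⟩ := hcc k
      have h4 := hv l
      have h5 := ag_mono r hl1
      have h6 := hv k
      omega
    have h4 := (invariant hr (max n (max 3 (s r (ag r) (ag r n + 1)))) (by omega)).1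
    rw [hn _ (le_max_left _ _)] at h4
    have h5 : s r (ag r) (ag r n + 1) ≤ max n (max 3 (s r (ag r) (ag r n + 1))) :=
      (le_max_right _ _).trans (le_max_right _ _)
    omega
  -- for `m ≥ 3` the first index with value `≥ m` is `s m`
  have key : ∀ m, 3 ≤ m → ag r (s r (ag r) m) = m ∧ ∀ x, x < s r (ag r) m → ag r x < m := by
    intro m hm
    have hex := hub m
    classical
    let y := Nat.find hex
    have hy : m ≤ ag r y := Nat.find_spec hex
    have hymin : ∀ z < y, ag r z < m := fun z hz => by
      have := Nat.find_min hex hz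
      push Not at this
      exact this
    have hy4 : 4 ≤ y := by
      by_contra hy4
      have : y ≤ 3 := by omega
      have := ag_mono r this
      rw [h3] at this
      omega
    obtain ⟨z, hz⟩ : ∃ z, y = z + 1 := ⟨y - 1, by omega⟩
    have h8 := ag_succ r z (by omega)
    have h9 : ag r z < m := hymin z (by omega)
    rw [← hz] at h8
    split_ifs at h8 with h10
    · have h11 : ag r z + 1 = m := by omega
      rw [h11] at h10 h8
      rw [h10]
      exact ⟨h8, hymin⟩
    · omega
  refine ⟨⟨h0, ?_, fun n => ag_mono r (Nat.le_succ n), ?_⟩, fun m hm => (key m hm).2⟩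
  · intro n hn
    have := ag_mono r hn
    rw [h1] at this
    exact this
  · intro n hn
    rcases Nat.lt_or_ge n 3 with h | h
    · interval_cases n
      · rw [(s_small hr).1, h1]
      · rw [(s_small hr).2.1, h3]
    · exact (key n h).1

theorem exists_unique {r : ℕ} (hr : 2 ≤ r) : ∃! a : ℕ → ℕ, IsAlmostGolomb r a :=
  ⟨ag r, (ag_FO hr).isAlmostGolomb hr, fun _ hb => hb.unique ((ag_FO hr).isAlmostGolomb hr)⟩

theorem IsAlmostGolomb.FO {r : ℕ} (hr : 2 ≤ r) {a : ℕ → ℕ} (h : IsAlmostGolomb r a) :
    FO r a := by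
  rw [h.unique ((ag_FO hr).isAlmostGolomb hr)]
  exact ag_FO hr

end Pool.Agent.Q51.AG
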