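import Pool.Agent.Q51.AG.Basic

set_option autoImplicit false

/-!
# Decay of `limsup a_r(n) / n`
-/

namespace Pool.Agent.Q51.AG

open Finset

namespace Sol

variable {r : ℕ} {a : ℕ → ℕ}

lemma le_self (h : Sol r a) (n : ℕ) : a n ≤ n := by
  induction n with
  | zero => rw [h.zero]
  | succ n ih => have := h.succ_le n; omega

lemma s_le (h : Sol r a) (m : ℕ) : s r a m ≤ r * a m := by
  unfold s
  calc ∑ i ∈ range r, a (m - i) ≤ ∑ i ∈ range r, a m :=
        Finset.sum_le_sum fun i _ => h.monotone (by omega)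
    _ = r * a m := by simp

lemma le_s (h : Sol r a) (m : ℕ) : r * a m ≤ s r a (m + r - 1) := by
  unfold s
  calc r * a m = ∑ i ∈ range r, a m := by simp
    _ ≤ ∑ i ∈ range r, a (m + r - 1 - i) := by
      apply Finset.sum_le_sum
      intro i hi
      rw [Finset.mem_range] at hi
      exact h.monotone (by omega)

lemma s_le' (h : Sol r a) (hr : 1 ≤ r) (m : ℕ) : s r a m ≤ m * a m := by
  induction m with
  | zero => rw [h.s_zero]; simp
  | succ m ih =>
    have h1 := s_step hr a m
    have h2 : m * a m ≤ m * a (m + 1) := Nat.mul_le_mul_left _ (h.mono m)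
    have h3 : (m + 1) * a (m + 1) = m * a (m + 1) + a (m + 1) := by ring
    omega

lemma sq_le (h : Sol r a) (hr : 1 ≤ r) (n : ℕ) : n ≤ a (n * n) := by
  rcases Nat.eq_zero_or_pos n with h0 | h0
  · rw [h0]; simp
  · have h1 : s r a n ≤ n * n := (h.s_le' hr n).trans (Nat.mul_le_mul_left _ (h.le_self n))
    have h2 := h.monotone h1
    rwa [h.eq n h0] at h2

lemma cube_le (h : Sol r a) {w : ℕ} (hw1 : 1 ≤ w) (hw : 2 * w ^ 2 ≤ r) :
    a (w ^ 3) ≤ 2 * w ^ 2 := by
  have hr : 1 ≤ r := by
    have : 1 ≤ w ^ 2 := Nat.one_le_pow _ _ hw1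
    omega
  have h1 : w ^ 3 ≤ s r a (2 * w ^ 2) := by
    unfold s
    calc w ^ 3 = ∑ i ∈ range (w ^ 2), w := by simp; ring
      _ ≤ ∑ i ∈ range (w ^ 2), a (2 * w ^ 2 - i) := by
        apply Finset.sum_le_sum
        intro i hi
        rw [Finset.mem_range] at hi
        refine (h.sq_le hr w).trans (h.monotone ?_)
        rw [← pow_two]; omega
      _ ≤ ∑ i ∈ range r, a (2 * w ^ 2 - i) := by
        apply Finset.sum_le_sum_of_subset
        intro i hi
        rw [Finset.mem_range] at hi ⊢
        omega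
  have h2 := h.monotone h1
  rwa [h.eq _ (by have : 1 ≤ w ^ 2 := Nat.one_le_pow _ _ hw1
                  omega)] at h2

lemma le_comp (h : Sol r a) (hr : 1 ≤ r) {m : ℕ} (hm : 1 ≤ m) :
    m ≤ a (r * a m) ∧ a (r * a m) ≤ m + r - 1 := by
  constructor
  · have := h.monotone (h.s_le m)
    rwa [h.eq m hm] at this
  · have := h.monotone (h.le_s m)
    rwa [h.eq _ (by omega)] at this

lemma exists_last (h : Sol r a) {v : ℕ} (hv : 1 ≤ v) : ∃ m, 1 ≤ m ∧ a m = v ∧ a (m + 1) = v + 1 := by
  have hex : ∃ y, a y = v + 1 := ⟨_, h.eq (v + 1) (by omega)⟩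
  classical
  let y := Nat.find hex
  have hy : a y = v + 1 := Nat.find_spec hex
  have hy0 : y ≠ 0 := by
    intro h0
    rw [h0, h.zero] at hy
    omega
  obtain ⟨m, hm⟩ : ∃ m, y = m + 1 := ⟨y - 1, by omega⟩
  have h1 : a m ≠ v + 1 := Nat.find_min hex (by omega)
  rw [hm] at hy
  have h2 := h.succ_le m
  have h3 := h.mono m
  have h4 : a m = v := by omega
  refine ⟨m, ?_, h4, hy⟩
  by_contra h5
  have : m = 0 := by omega
  rw [this, h.zero] at h4
  omega

lemma chain (h : Sol r a) (hr : 2 ≤ r) {x : ℕ} (hx : r * a r ≤ x) :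
    ∃ m, r ≤ m ∧ r * a m ≤ x ∧ x < r * (a m + 1) ∧ m ≤ a x ∧ a x ≤ m + r := by
  have h1 : 1 ≤ a r := h.pos r (by omega)
  have h2 : a r ≤ x / r := by
    rw [Nat.le_div_iff_mul_le (by omega)]
    rwa [mul_comm]
  obtain ⟨m, hm1, hm2, hm3⟩ := h.exists_last (show 1 ≤ x / r by omega)
  have h3 : r * (x / r) ≤ x := Nat.mul_div_le x r
  have h4 : x < r * (x / r + 1) := by
    have := Nat.lt_mul_div_succ x (show 0 < r by omega)
    exact this
  refine ⟨m, ?_, by rw [hm2]; exact h3, by rw [hm2]; exact h4, ?_, ?_⟩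
  · by_contra h5
    have := h.monotone (show m + 1 ≤ r by omega)
    omega
  · have := (h.le_comp (by omega) hm1).1
    rw [hm2] at this
    exact this.trans (h.monotone h3)
  · have h5 := (h.le_comp (r := r) (by omega) (show 1 ≤ m + 1 by omega)).2
    rw [hm3] at h5
    have := h.monotone h4.le
    omega

end Sol

lemma pow5_le {q : ℕ} (hq : 1 ≤ q) : (q + 1) ^ 5 ≤ 32 * q ^ 5 := by
  have h1 : q + 1 ≤ 2 * q := by omega
  calc (q + 1) ^ 5 ≤ (2 * q) ^ 5 := Nat.pow_le_pow_left h1 5
    _ = 32 * q ^ 5 := by ring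

theorem Sol.main {r : ℕ} {a : ℕ → ℕ} (h : Sol r a) {q : ℕ} (hq : 32 ≤ q) (h1 : q ^ 5 ≤ r)
    (h2 : r < (q + 1) ^ 5) {U : ℝ} (hU1 : 64 * Real.exp 2 ≤ U * √q) (hU2 : U ≤ 1 / 2) :
    ∀ x : ℕ, r ≤ x → (a x : ℝ) * Real.exp (2 * r / x) ≤ U * x ∧
      Real.exp (2 * r / x) * x ≤ r * U * a x := by
  have hq0 : (0 : ℝ) < q := by positivity
  have hsq : (0 : ℝ) < √q := Real.sqrt_pos.2 hq0
  have hsq1 : (1 : ℝ) ≤ √q := by
    rw [Real.one_le_sqrt]
    exact_mod_cast (show 1 ≤ q by omega)
  have hsqq : √(q : ℝ) * √q = q := Real.mul_self_sqrt hq0.le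
  have hr5 : 32 ^ 5 ≤ r := (Nat.pow_le_pow_left hq 5).trans h1
  have hr2 : 2 ≤ r := le_trans (by norm_num) hr5
  have hU0 : 0 < U := by
    by_contra hc
    push Not at hc
    have : U * √q ≤ 0 := mul_nonpos_of_nonpos_of_nonneg hc hsq.le
    have := Real.exp_pos 2
    linarith
  have hr0 : (0 : ℝ) < r := by positivity
  -- bounds in the base range
  have hrq6 : r ≤ q ^ 6 := by
    have := pow5_le (show 1 ≤ q by omega)
    have h3 : 32 * q ^ 5 ≤ q ^ 6 := by
      rw [pow_succ q 5, mul_comm (q ^ 5) q]
      exact Nat.mul_le_mul_right _ hq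
    omega
  have hq4 : a (q ^ 6) ≤ 2 * q ^ 4 := by
    have h3 : 2 * (q ^ 2) ^ 2 ≤ r := by
      refine le_trans ?_ h1
      calc 2 * (q ^ 2) ^ 2 = 2 * q ^ 4 := by ring
        _ ≤ q * q ^ 4 := Nat.mul_le_mul_right _ (by omega)
        _ = q ^ 5 := by ring
    have := h.cube_le (w := q ^ 2) (Nat.one_le_pow _ _ (by omega)) h3
    calc a (q ^ 6) = a ((q ^ 2) ^ 3) := by rw [← pow_mul]
      _ ≤ 2 * (q ^ 2) ^ 2 := this
      _ = 2 * q ^ 4 := by ring
  have har : a r ≤ 2 * q ^ 4 := (h.monotone hrq6).trans hq4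
  intro x
  induction x using Nat.strong_induction_on with
  | _ x ih =>
    intro hx
    have hx0 : (0 : ℝ) < x := by
      have : 0 < x := by omega
      exact_mod_cast this
    have hrx : (r : ℝ) ≤ x := by exact_mod_cast hx
    rcases Nat.lt_or_ge x (r * a r) with hbase | hstep
    · -- base range
      have hexp : Real.exp (2 * r / x) ≤ Real.exp 2 := by
        apply Real.exp_le_exp.2
        rw [div_le_iff₀ hx0]
        linarith
      have hupper : (a x : ℝ) * q ≤ 64 * x := by
        rcases Nat.lt_or_ge (q ^ 6) x with h3 | h3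
        · have h4 : a x ≤ 2 * r := by
            have := (h.le_comp (r := r) (by omega) (show 1 ≤ r by omega)).2
            have := h.monotone hbase.le
            omega
          have h5 : 2 * r * q ≤ 64 * x := by
            have := pow5_le (show 1 ≤ q by omega)
            calc 2 * r * q ≤ 2 * (32 * q ^ 5) * q := by
                  apply Nat.mul_le_mul_right
                  omega
              _ = 64 * q ^ 6 := by ring
              _ ≤ 64 * x := by omega
          have h6 : a x * q ≤ 64 * x := (Nat.mul_le_mul_right q h4).trans h5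
          exact_mod_cast h6
        · have h4 : a x ≤ 2 * q ^ 4 := (h.monotone h3).trans hq4
          have h6 : a x * q ≤ 64 * x := by
            calc a x * q ≤ 2 * q ^ 4 * q := Nat.mul_le_mul_right q h4
              _ = 2 * q ^ 5 := by ring
              _ ≤ 64 * x := by omega
          exact_mod_cast h6
      constructor
      · have h3 : (a x : ℝ) * √q ≤ 64 * x := by
          have h4 : √(q : ℝ) ≤ q := by
            calc √(q : ℝ) = √q * 1 := by ring
              _ ≤ √q * √q := mul_le_mul_of_nonneg_left hsq1 hsq.le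
              _ = q := hsqq
          exact (mul_le_mul_of_nonneg_left h4 (by positivity)).trans hupper
        have h5 : (a x : ℝ) * Real.exp (2 * r / x) ≤ a x * Real.exp 2 :=
          mul_le_mul_of_nonneg_left hexp (by positivity)
        refine h5.trans ?_
        have h6 : (a x : ℝ) * Real.exp 2 * √q ≤ U * x * √q := by
          calc (a x : ℝ) * Real.exp 2 * √q = (a x * √q) * Real.exp 2 := by ring
            _ ≤ (64 * x) * Real.exp 2 := mul_le_mul_of_nonneg_right h3 (Real.exp_pos _).le
            _ = (64 * Real.exp 2) * x := by ring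
            _ ≤ (U * √q) * x := mul_le_mul_of_nonneg_right hU1 hx0.le
            _ = U * x * √q := by ring
        exact le_of_mul_le_mul_right h6 hsq
      · -- lower bound
        set y := Nat.sqrt x with hy
        have hy1 : y * y ≤ x := Nat.sqrt_le x
        have hy2 : x < (y + 1) * (y + 1) := Nat.lt_succ_sqrt x
        have hy0 : 1 ≤ y := by
          by_contra h0
          have : y = 0 := by omega
          rw [this] at hy2
          omega
        have hya : y ≤ a x := (h.sq_le (by omega) y).trans (h.monotone hy1)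
        have hx4 : x ≤ 4 * (y * y) := by nlinarith
        have hxq : x * q ≤ 2 * (r * r) := by
          calc x * q ≤ (r * (2 * q ^ 4)) * q :=
                Nat.mul_le_mul_right _ (hbase.le.trans (Nat.mul_le_mul_left _ har))
            _ = 2 * (r * q ^ 5) := by ring
            _ ≤ 2 * (r * r) := Nat.mul_le_mul_left _ (Nat.mul_le_mul_left _ h1)
        have hx4' : (x : ℝ) ≤ 4 * (y * y) := by exact_mod_cast hx4
        have hxq' : (x : ℝ) * q ≤ 2 * (r * r) := by exact_mod_cast hxq
        have hya' : (y : ℝ) ≤ a x := by exact_mod_cast hya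
        have h3 : (x : ℝ) * √q ≤ 64 * (r * y) := by
          apply le_of_sq_le_sq _ (by positivity)
          calc ((x : ℝ) * √q) ^ 2 = x * (x * (√q * √q)) := by ring
            _ = x * (x * q) := by rw [hsqq]
            _ ≤ (4 * (y * y)) * (2 * (r * r)) :=
              mul_le_mul hx4' hxq' (by positivity) (by positivity)
            _ ≤ (64 * (r * y)) ^ 2 := by nlinarith [mul_nonneg (mul_nonneg hr0.le hr0.le) (mul_nonneg (Nat.cast_nonneg (α := ℝ) y) (Nat.cast_nonneg (α := ℝ) y))]
        have h4 : (x : ℝ) * √q ≤ 64 * (r * a x) :=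
          h3.trans (by
            apply mul_le_mul_of_nonneg_left _ (by norm_num)
            exact mul_le_mul_of_nonneg_left hya' hr0.le)
        have h5 : Real.exp (2 * r / x) * x ≤ Real.exp 2 * x :=
          mul_le_mul_of_nonneg_right hexp hx0.le
        refine h5.trans ?_
        have h6 : Real.exp 2 * x * √q ≤ r * U * a x * √q := by
          calc Real.exp 2 * x * √q = (x * √q) * Real.exp 2 := by ring
            _ ≤ (64 * (r * a x)) * Real.exp 2 := mul_le_mul_of_nonneg_right h4 (Real.exp_pos _).le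
            _ = (64 * Real.exp 2) * (r * a x) := by ring
            _ ≤ (U * √q) * (r * a x) := mul_le_mul_of_nonneg_right hU1 (by positivity)
            _ = r * U * a x * √q := by ring
        exact le_of_mul_le_mul_right h6 hsq
    · -- inductive step
      obtain ⟨m, hm1, hm2, hm3, hm4, hm5⟩ := h.chain hr2 hstep
      have hxx : a x + 1 ≤ x := h.lt_self hr2 (le_trans (by norm_num) (hr5.trans hx))
      obtain ⟨i1, i2⟩ := ih m (by omega) hm1
      have hm0 : (0 : ℝ) < m := by
        have : 0 < m := by omega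
        exact_mod_cast this
      have hA0 : (0 : ℝ) < a m := by
        have := h.pos m (by omega)
        exact_mod_cast this
      have hm2' : (r : ℝ) * a m ≤ x := by exact_mod_cast hm2
      have hm3' : (x : ℝ) ≤ r * (a m + 1) := by exact_mod_cast hm3.le
      have hm4' : (m : ℝ) ≤ a x := by exact_mod_cast hm4
      have hm5' : (a x : ℝ) ≤ m + r := by exact_mod_cast hm5
      set E := Real.exp (r / m) with hE
      have hE2 : Real.exp (2 * r / m) = E * E := by
        rw [hE, ← Real.exp_add]; congr 1; ring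
      have hE1 : 1 ≤ E := Real.one_le_exp (by positivity)
      rw [hE2] at i1 i2
      -- `2 m ≤ x`
      have h2m : 2 * (m : ℝ) ≤ x := by
        have h3 : (m : ℝ) ≤ E * E * m := by
          calc (m : ℝ) = 1 * 1 * m := by ring
            _ ≤ E * E * m := mul_le_mul_of_nonneg_right
              (mul_le_mul hE1 hE1 (by norm_num) (by linarith)) hm0.le
        have h4 : (r : ℝ) * U * a m ≤ U * x := by
          calc (r : ℝ) * U * a m = U * (r * a m) := by ring
            _ ≤ U * x := mul_le_mul_of_nonneg_left hm2' hU0.le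
        have h5 : U * x ≤ 1 / 2 * x := mul_le_mul_of_nonneg_right hU2 hx0.le
        linarith
      have hexp : Real.exp (2 * r / x) ≤ E := by
        apply Real.exp_le_exp.2
        rw [div_le_div_iff₀ hx0 hm0]
        nlinarith
      constructor
      · have h3 : (a x : ℝ) ≤ m * E := by
          have h4 : 1 + (r : ℝ) / m ≤ E := by
            have := Real.add_one_le_exp ((r : ℝ) / m)
            linarith
          calc (a x : ℝ) ≤ m + r := hm5'
            _ = m * (1 + r / m) := by field_simp
            _ ≤ m * E := mul_le_mul_of_nonneg_left h4 hm0.le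
        calc (a x : ℝ) * Real.exp (2 * r / x) ≤ (m * E) * E :=
              mul_le_mul h3 hexp (Real.exp_pos _).le (by positivity)
          _ = E * E * m := by ring
          _ ≤ r * U * a m := i2
          _ = U * (r * a m) := by ring
          _ ≤ U * x := mul_le_mul_of_nonneg_left hm2' hU0.le
      · have h3 : (x : ℝ) ≤ r * a m * E := by
          have h4 : 1 + 1 / (a m : ℝ) ≤ E := by
            have h5 := Real.add_one_le_exp (1 / (a m : ℝ))
            have h6 : Real.exp (1 / (a m : ℝ)) ≤ E := by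
              apply Real.exp_le_exp.2
              rw [div_le_div_iff₀ hA0 hm0]
              have h7 := (h.le_comp (r := r) (by omega) (show 1 ≤ m by omega)).1
              have h8 := h7.trans (h.le_self _)
              have h9 : (m : ℝ) ≤ r * a m := by exact_mod_cast h8
              linarith
            linarith
          calc (x : ℝ) ≤ r * (a m + 1) := hm3'
            _ = r * a m * (1 + 1 / (a m : ℝ)) := by field_simp
            _ ≤ r * a m * E := mul_le_mul_of_nonneg_left h4 (by positivity)
        calc Real.exp (2 * r / x) * x ≤ E * (r * a m * E) :=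
              mul_le_mul hexp h3 hx0.le (by positivity)
          _ = r * (a m * (E * E)) := by ring
          _ ≤ r * (U * m) := mul_le_mul_of_nonneg_left i1 hr0.le
          _ = r * U * m := by ring
          _ ≤ r * U * a x := mul_le_mul_of_nonneg_left hm4' (by positivity)

/-- for every `ε > 0`, if `r` is large, then `a(n) ≤ ε n` for all `n ≥ r` and every solution `a` -/
theorem Sol.small {ε : ℝ} (hε : 0 < ε) : ∃ R : ℕ, ∀ r, R ≤ r → ∀ a : ℕ → ℕ, Sol r a →
    ∀ n : ℕ, r ≤ n → (a n : ℝ) ≤ ε * n := by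
  -- `U = min ε (1/2)`
  set U := min ε (1 / 2) with hU
  have hU0 : 0 < U := lt_min hε (by norm_num)
  obtain ⟨Q, hQ⟩ := exists_nat_ge ((64 * Real.exp 2 / U) ^ 2)
  refine ⟨(max Q 32 + 1) ^ 5, fun r hr a h n hn => ?_⟩
  -- the fifth root
  have hex : ∃ q, r < (q + 1) ^ 5 := ⟨r, by
    calc r < r + 1 := by omega
      _ = (r + 1) ^ 1 := by ring
      _ ≤ (r + 1) ^ 5 := Nat.pow_le_pow_right (by omega) (by norm_num)⟩
  classical
  let q := Nat.find hex
  have hq2 : r < (q + 1) ^ 5 := Nat.find_spec hex
  have hqQ : max Q 32 < q + 1 := by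
    by_contra hc
    push Not at hc
    have : (q + 1) ^ 5 ≤ (max Q 32 + 1) ^ 5 := Nat.pow_le_pow_left (by omega) 5
    omega
  have hq32 : 32 ≤ q := by have := le_max_right Q 32; omega
  have hqQ' : Q ≤ q := by have := le_max_left Q 32; omega
  have hq1 : q ^ 5 ≤ r := by
    obtain ⟨p, hp⟩ : ∃ p, q = p + 1 := ⟨q - 1, by omega⟩
    have := Nat.find_min hex (show p < q by omega)
    push Not at this
    rw [hp]
    exact this
  have h1 : 64 * Real.exp 2 ≤ U * √q := by
    have h2 : 64 * Real.exp 2 / U ≤ √q := by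
      apply Real.le_sqrt_of_sq_le
      refine hQ.trans ?_
      exact_mod_cast hqQ'
    rw [div_le_iff₀ hU0] at h2
    linarith
  have h3 := (h.main hq32 hq1 hq2 h1 (min_le_right _ _) n hn).1
  have h4 : (1 : ℝ) ≤ Real.exp (2 * r / n) := Real.one_le_exp (by positivity)
  calc (a n : ℝ) = a n * 1 := by ring
    _ ≤ a n * Real.exp (2 * r / n) := mul_le_mul_of_nonneg_left h4 (by positivity)
    _ ≤ U * n := h3
    _ ≤ ε * n := mul_le_mul_of_nonneg_right (min_le_left _ _) (by positivity)

end Pool.Agent.Q51.AG
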