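import Pool.Agent.Q51.AG.Basic

set_option autoImplicit false

/-!
# Multiplicities in almost Golomb sequences
-/

namespace Pool.Agent.Q51.AG

open Finset

/-- the number of `i ≥ 1` with `a i = n` -/
noncomputable def mult (a : ℕ → ℕ) (n : ℕ) : ℕ∞ := {i : ℕ | 1 ≤ i ∧ a i = n}.encard

/-- the maximal multiplicity of a value `n ≥ 1` -/
noncomputable def maxMult (a : ℕ → ℕ) : ℕ∞ := ⨆ (n : ℕ) (_ : 1 ≤ n), mult a n

/-- Golomb's sequence (terms with index `≥ 1`): positive, nondecreasing, and every `n ≥ 1` occurs
exactly `G n` times -/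
structure IsGolomb (G : ℕ → ℕ) : Prop where
  pos : ∀ n, 1 ≤ n → 1 ≤ G n
  mono : ∀ n, 1 ≤ n → G n ≤ G (n + 1)
  count : ∀ n, 1 ≤ n → mult G n = G n

/-- `S(k) = G(1) + ... + G(k)` -/
def S (G : ℕ → ℕ) (k : ℕ) : ℕ := ∑ n ∈ Icc 1 k, G n

lemma S_zero (G : ℕ → ℕ) : S G 0 = 0 := by simp [S]

lemma S_succ (G : ℕ → ℕ) (k : ℕ) : S G (k + 1) = S G k + G (k + 1) := by
  unfold S
  rw [Finset.sum_Icc_succ_top (by omega)]

lemma IsGolomb.mono' {G : ℕ → ℕ} (h : IsGolomb G) {x y : ℕ} (hx : 1 ≤ x) (hxy : x ≤ y) :
    G x ≤ G y := by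
  induction y, hxy using Nat.le_induction with
  | base => exact le_rfl
  | succ y hy ih => exact ih.trans (h.mono y (by omega))

lemma IsGolomb.le_iff {G : ℕ → ℕ} (h : IsGolomb G) (k : ℕ) :
    ∀ x, 1 ≤ x → (G x ≤ k ↔ x ≤ S G k) := by
  induction k with
  | zero =>
    intro x hx
    have := h.pos x hx
    rw [S_zero]
    omega
  | succ k ih =>
    -- the set of indices with value at most `k + 1`
    have hB : {i : ℕ | 1 ≤ i ∧ G i ≤ k + 1} =
        (↑(Icc 1 (S G k)) : Set ℕ) ∪ {i : ℕ | 1 ≤ i ∧ G i = k + 1} := by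
      ext i
      simp only [Set.mem_ofPred_eq, Set.mem_union, Finset.coe_Icc, Set.mem_Icc]
      constructor
      · rintro ⟨h1, h2⟩
        have := ih i h1
        by_cases h3 : G i = k + 1
        · exact Or.inr ⟨h1, h3⟩
        · exact Or.inl ⟨h1, this.1 (by omega)⟩
      · rintro (⟨h1, h2⟩ | ⟨h1, h2⟩)
        · exact ⟨h1, by have := (ih i h1).2 h2; omega⟩
        · exact ⟨h1, by omega⟩
    have hd : Disjoint (↑(Icc 1 (S G k)) : Set ℕ) {i : ℕ | 1 ≤ i ∧ G i = k + 1} := by
      rw [Set.disjoint_left]
      intro i hi hi'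
      simp only [Finset.coe_Icc, Set.mem_Icc, Set.mem_ofPred_eq] at hi hi'
      have := (ih i hi.1).2 hi.2
      omega
    have hcard : {i : ℕ | 1 ≤ i ∧ G i ≤ k + 1}.encard = ((S G (k + 1) : ℕ) : ℕ∞) := by
      rw [hB, Set.encard_union_eq hd, Set.encard_coe_eq_coe_finsetCard, Nat.card_Icc]
      have := h.count (k + 1) (by omega)
      unfold mult at this
      rw [this, S_succ]
      simp
    intro x hx
    constructor
    · intro h1
      have hsub : (↑(Icc 1 x) : Set ℕ) ⊆ {i : ℕ | 1 ≤ i ∧ G i ≤ k + 1} := by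
        intro i hi
        simp only [Finset.coe_Icc, Set.mem_Icc] at hi
        exact ⟨hi.1, (h.mono' hi.1 hi.2).trans h1⟩
      have := Set.encard_le_encard hsub
      rw [hcard, Set.encard_coe_eq_coe_finsetCard, Nat.card_Icc] at this
      have := Nat.cast_le.1 this
      omega
    · intro h1
      by_contra h2
      have hsub : {i : ℕ | 1 ≤ i ∧ G i ≤ k + 1} ⊆ (↑(Icc 1 (x - 1)) : Set ℕ) := by
        intro i hi
        simp only [Finset.coe_Icc, Set.mem_Icc]
        refine ⟨hi.1, ?_⟩
        by_contra h3
        have := h.mono' hx (show x ≤ i by omega)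
        have := hi.2
        omega
      have := Set.encard_le_encard hsub
      rw [hcard, Set.encard_coe_eq_coe_finsetCard, Nat.card_Icc] at this
      have := Nat.cast_le.1 this
      omega

lemma IsGolomb.one {G : ℕ → ℕ} (h : IsGolomb G) : G 1 = 1 := by
  have h1 := h.pos 1 le_rfl
  have h2 := (h.le_iff 1 1 le_rfl).2 (by rw [S_succ, S_zero]; simpa using h1)
  omega

/-- initial behaviour of a sequence -/
structure Init (N : ℕ) (b : ℕ → ℕ) : Prop where
  zero : b 0 = 0
  one : b 1 = 1
  two : b 2 = 2
  ge : ∀ n, 3 ≤ n → n ≤ N → 2 ≤ b n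
  le : ∀ n, 3 ≤ n → n ≤ N → b n + 1 ≤ n
  iff : ∀ n, 3 ≤ n → n ≤ N → ∀ m, 3 ≤ m → m + 1 ≤ n →
    (m ≤ b n ↔ ∑ j ∈ range (m + 1), b j ≤ n)

lemma Init.unique {N : ℕ} {b c : ℕ → ℕ} (hb : Init N b) (hc : Init N c) (n : ℕ) (hn : n ≤ N) :
    b n = c n := by
  induction n using Nat.strong_induction_on with
  | _ n ih =>
    rcases Nat.lt_or_ge n 3 with h | h
    · interval_cases n
      · rw [hb.zero, hc.zero]
      · rw [hb.one, hc.one]
      · rw [hb.two, hc.two]
    · have key : ∀ m, 3 ≤ m → m + 1 ≤ n → (m ≤ b n ↔ m ≤ c n) := by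
        intro m hm hmn
        rw [hb.iff n h hn m hm hmn, hc.iff n h hn m hm hmn]
        have : ∑ j ∈ range (m + 1), b j = ∑ j ∈ range (m + 1), c j := by
          apply Finset.sum_congr rfl
          intro j hj
          rw [Finset.mem_range] at hj
          exact ih j (by omega) (by omega)
        rw [this]
      have b1 := hb.ge n h hn
      have b2 := hb.le n h hn
      have c1 := hc.ge n h hn
      have c2 := hc.le n h hn
      rcases lt_trichotomy (b n) (c n) with h1 | h1 | h1
      · have := (key (c n) (by omega) c2).2 le_rfl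
        omega
      · exact h1
      · have := (key (b n) (by omega) b2).1 le_rfl
        omega

lemma s_eq_sum {r : ℕ} (hr : 1 ≤ r) {a : ℕ → ℕ} (h0 : a 0 = 0) (m : ℕ) (hm : m ≤ r) :
    s r a m = ∑ j ∈ range (m + 1), a j := by
  induction m with
  | zero =>
    unfold s
    rw [Finset.sum_eq_zero (fun i _ => by rw [Nat.zero_sub]; exact h0)]
    simp [h0]
  | succ m ih =>
    have h1 := s_step hr a m
    have h2 : m + 1 - r = 0 := by omega
    rw [h2, h0, add_zero] at h1
    rw [h1, ih (by omega), Finset.sum_range_succ _ (m + 1)]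

namespace FO

variable {r : ℕ} {a : ℕ → ℕ}

lemma lt_iff (h : FO r a) {m : ℕ} (hm : 3 ≤ m) (x : ℕ) : a x < m ↔ x < s r a m := by
  constructor
  · intro h1
    by_contra h2
    have := h.monotone (not_lt.1 h2)
    rw [h.eq m (by omega)] at this
    omega
  · exact h.first m hm x

lemma init (h : FO r a) (hr : 2 ≤ r) : Init r a where
  zero := h.zero
  one := h.one hr
  two := h.two hr
  ge := fun n hn _ => by
    have := h.monotone (show 2 ≤ n by omega)
    rwa [h.two hr] at this
  le := fun n hn _ => h.lt_self hr hn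
  iff := fun n _ hn m hm hmn => by
    rw [← s_eq_sum (by omega : 1 ≤ r) h.zero m (by omega)]
    have := h.lt_iff hm n
    omega

lemma set_eq (h : FO r a) {m : ℕ} (hm : 3 ≤ m) :
    {i | 1 ≤ i ∧ a i = m} = Set.Ico (s r a m) (s r a (m + 1)) := by
  ext i
  simp only [Set.mem_ofPred_eq, Set.mem_Ico]
  have h1 := h.lt_iff hm i
  have h2 := h.lt_iff (show 3 ≤ m + 1 by omega) i
  constructor
  · rintro ⟨h3, h4⟩; constructor <;> omega
  · rintro ⟨h3, h4⟩
    have h6 : a i = m := by omega
    refine ⟨?_, h6⟩
    by_contra h5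
    have h7 : i = 0 := by omega
    rw [h7, h.zero] at h6
    omega

lemma mult_eq (h : FO r a) {m : ℕ} (hm : 3 ≤ m) :
    mult a m = ((s r a (m + 1) - s r a m : ℕ) : ℕ∞) := by
  unfold mult
  rw [h.set_eq hm, ← Finset.coe_Ico, Set.encard_coe_eq_coe_finsetCard, Nat.card_Ico]

/-- `a 5 ≥ 3` -/
lemma five (h : FO r a) (hr : 2 ≤ r) : 3 ≤ a 5 := by
  have h1 := s_step (by omega : 1 ≤ r) a 2
  have h2 : s r a 3 ≤ 5 := by
    have := h.s_two hr
    have h3 := h.three hr
    have h4 := h.two hr
    simp only [Nat.reduceAdd] at h1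
    omega
  have := h.monotone h2
  rwa [h.eq 3 (by omega)] at this

/-- the key bound -/
lemma key (h : FO r a) (hr : 2 ≤ r) (m : ℕ) (hm : 3 ≤ m) :
    a (m + 1) ≤ a (m + 1 - r) + max 3 (a r) := by
  set M := max 3 (a r) with hM
  have hM3 : 3 ≤ M := le_max_left _ _
  have hMr : a r ≤ M := le_max_right _ _
  induction m using Nat.strong_induction_on with
  | _ m ih =>
    rcases Nat.lt_or_ge (m + 1) (r + 1) with h1 | h1
    · have := h.monotone (show m + 1 ≤ r by omega)
      omega
    rcases Nat.lt_or_ge (m + 1) (r + 2) with h2 | h2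
    · have h3 : m + 1 = r + 1 := by omega
      rw [h3, show r + 1 - r = 1 by omega]
      have := h.succ_le r
      have := h.one hr
      omega
    obtain ⟨t, ht⟩ : ∃ t, m + 1 = t + r := ⟨m + 1 - r, by omega⟩
    have ht2 : 2 ≤ t := by omega
    rw [ht, Nat.add_sub_cancel]
    set u := a t with hu
    have hu2 : 2 ≤ u := by
      have := h.monotone ht2
      rwa [h.two hr] at this
    have hut : u ≤ t := by
      rcases Nat.lt_or_ge t 3 with h3 | h3
      · have : t = 2 := by omega
        rw [hu, this, h.two hr]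
      · have := h.lt_self hr h3
        omega
    by_contra hcon
    push Not at hcon
    have h3 : s r a (u + M + 1) ≤ t + r := by
      by_contra h4
      have := h.first (u + M + 1) (by omega) (t + r) (by omega)
      omega
    have h4 : t < s r a (u + 1) := (h.lt_iff (by omega) t).1 (by omega)
    -- values increase after `M` steps
    have hinc : ∀ x, 1 ≤ x → x ≤ u + 1 → a x < a (x + M) := by
      intro x hx hxu
      have hv : a x ≤ u := by
        have := h.monotone hxu
        have := h.lt_self hr (show 3 ≤ u + 1 by omega)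
        omega
      rcases Nat.lt_or_ge (a x) 3 with hv3 | hv3
      · have hx1 := h.pos x hx
        rcases Nat.lt_or_ge (a x) 2 with hv2 | hv2
        · have := h.monotone (show 2 ≤ x + M by omega)
          rw [h.two hr] at this
          omega
        · have hx2 : 2 ≤ x := by
            by_contra hx2
            have : x = 1 := by omega
            rw [this, h.one hr] at hv2
            omega
          have := h.monotone (show 5 ≤ x + M by omega)
          have := h.five hr
          omega
      · have h5 := ih (a x) (by omega) hv3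
        have h6 := s_step (by omega : 1 ≤ r) a (a x)
        have h7 : s r a (a x) ≤ x := by
          by_contra h8
          have := h.first (a x) hv3 x (by omega)
          omega
        have h8 : s r a (a x + 1) ≤ x + M := by omega
        have := h.monotone h8
        rw [h.eq (a x + 1) (by omega)] at this
        omega
    rcases Nat.lt_or_ge (u + M + 1) r with h5 | h5
    · -- case B
      rw [s_eq_sum (by omega) h.zero _ (by omega)] at h3 h4
      have h6 : ∑ j ∈ range (u + M + 1 + 1), a j =
          ∑ j ∈ range (u + 1 + 1), a j + ∑ j ∈ range M, a (u + 1 + 1 + j) := by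
        rw [← Finset.sum_range_add]
        congr 2
        omega
      have h7 : ∑ j ∈ range M, a (4 + j) ≤ ∑ j ∈ range M, a (u + 1 + 1 + j) :=
        Finset.sum_le_sum fun j _ => h.monotone (by omega)
      have h8 : r < s r a (M + 1) := (h.lt_iff (by omega) r).1 (by omega)
      rw [s_eq_sum (by omega) h.zero _ (by omega)] at h8
      have h9 : ∑ j ∈ range (4 + M), a j = ∑ j ∈ range 4, a j + ∑ j ∈ range M, a (4 + j) :=
        Finset.sum_range_add _ _ _
      have h10 : ∑ j ∈ range 4, a j = 5 := by
        simp [Finset.sum_range_succ, h.zero, h.one hr, h.two hr, h.three hr]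
      have h11 : ∑ j ∈ range (4 + M), a j = ∑ j ∈ range (M + 1 + 1), a j + a (M + 2) + a (M + 3) := by
        rw [show 4 + M = M + 1 + 1 + 1 + 1 by omega, Finset.sum_range_succ, Finset.sum_range_succ]
      have h12 := h.monotone (show 5 ≤ M + 2 by omega)
      have h13 := h.monotone (show 5 ≤ M + 3 by omega)
      have h14 := h.five hr
      omega
    · -- case A
      have h6 : s r a (u + 1) + r ≤ s r a (u + M + 1) := by
        unfold s
        calc ∑ i ∈ range r, a (u + 1 - i) + r = ∑ i ∈ range r, (a (u + 1 - i) + 1) := by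
              rw [Finset.sum_add_distrib]; simp
          _ ≤ ∑ i ∈ range r, a (u + M + 1 - i) := by
              apply Finset.sum_le_sum
              intro i hi
              rw [Finset.mem_range] at hi
              rcases Nat.lt_or_ge i (u + 1) with h7 | h7
              · have := hinc (u + 1 - i) (by omega) (by omega)
                rw [show u + 1 - i + M = u + M + 1 - i by omega] at this
                omega
              · rw [show u + 1 - i = 0 by omega, h.zero]
                have := h.pos (u + M + 1 - i) (by omega)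
                omega
      omega

lemma mult_le (h : FO r a) (hr : 2 ≤ r) (m : ℕ) (hm : 1 ≤ m) :
    mult a m ≤ ((max 3 (a r) : ℕ) : ℕ∞) := by
  rcases Nat.lt_or_ge m 3 with hm3 | hm3
  · have hsub : {i : ℕ | 1 ≤ i ∧ a i = m} ⊆ (↑(Ico m (m + 3)) : Set ℕ) := by
      intro i hi
      obtain ⟨h1, h2⟩ := hi
      simp only [Finset.coe_Ico, Set.mem_Ico]
      have h3 := h.one hr
      have h5 := h.five hr
      constructor
      · by_contra h6
        have : i = 1 := by omega
        rw [this, h3] at h2
        omega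
      · by_contra h6
        rcases Nat.lt_or_ge m 2 with h7 | h7
        · have := h.monotone (show 2 ≤ i by omega)
          rw [h.two hr] at this
          omega
        · have := h.monotone (show 5 ≤ i by omega)
          omega
    have := Set.encard_le_encard hsub
    rw [Set.encard_coe_eq_coe_finsetCard, Nat.card_Ico] at this
    refine this.trans (Nat.cast_le.2 ?_)
    omega
  · rw [h.mult_eq hm3]
    apply Nat.cast_le.2
    have h1 := h.key hr m hm3
    have h2 := s_step (by omega : 1 ≤ r) a m
    omega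

lemma maxMult_iff (h : FO r a) (hr : 2 ≤ r) (k : ℕ) (hk : 4 ≤ k) :
    (k : ℕ∞) ≤ maxMult a ↔ k ≤ a r := by
  constructor
  · intro h1
    have h2 : maxMult a ≤ ((max 3 (a r) : ℕ) : ℕ∞) :=
      iSup₂_le fun m hm => h.mult_le hr m hm
    have := Nat.cast_le.1 (h1.trans h2)
    omega
  · intro h1
    have hr5 : 5 ≤ r := by
      have := h.lt_self hr (n := r)
      by_contra h2
      have := h.monotone (show r ≤ 4 by omega)
      have := h.lt_self hr (show 3 ≤ 4 by omega)
      omega
    have h2 : mult a (r - 1) ≤ maxMult a :=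
      le_iSup₂ (f := fun (n : ℕ) (_ : 1 ≤ n) => mult a n) (r - 1) (by omega)
    refine le_trans ?_ h2
    rw [h.mult_eq (by omega)]
    apply Nat.cast_le.2
    have h3 := s_step (by omega : 1 ≤ r) a (r - 1)
    rw [show r - 1 + 1 = r by omega, Nat.sub_self, h.zero] at h3
    rw [show r - 1 + 1 = r by omega]
    omega

end FO

/-- the shifted Golomb sequence -/
lemma IsGolomb.init {G : ℕ → ℕ} (h : IsGolomb G) (N : ℕ) :
    Init N (fun n => if n ≤ 2 then n else G (n - 1)) := by
  have hsum : ∀ m, 2 ≤ m → ∑ j ∈ range (m + 1), (if j ≤ 2 then j else G (j - 1)) =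
      S G (m - 1) + 2 := by
    intro m hm
    induction m, hm using Nat.le_induction with
    | base =>
      simp only [Nat.reduceAdd, Nat.reduceSub]
      rw [S_succ, S_zero, h.one]
      simp [Finset.sum_range_succ]
    | succ m hm ih =>
      rw [Finset.sum_range_succ, ih, if_neg (by omega)]
      rw [show m + 1 - 1 = m by omega]
      obtain ⟨q, rfl⟩ : ∃ q, m = q + 1 := ⟨m - 1, by omega⟩
      rw [S_succ]
      simp only [Nat.add_sub_cancel]
      omega
  refine ⟨rfl, rfl, rfl, ?_, ?_, ?_⟩
  · intro n hn _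
    simp only [if_neg (show ¬ n ≤ 2 by omega)]
    by_contra h1
    have := (h.le_iff 1 (n - 1) (by omega)).1 (by omega)
    rw [S_succ, S_zero, h.one] at this
    omega
  · intro n hn _
    simp only [if_neg (show ¬ n ≤ 2 by omega)]
    have : G (n - 1) ≤ n - 1 := by
      rw [h.le_iff _ _ (by omega)]
      unfold S
      calc n - 1 = ∑ i ∈ Icc 1 (n - 1), 1 := by simp
        _ ≤ ∑ i ∈ Icc 1 (n - 1), G i := Finset.sum_le_sum fun i hi => by
          rw [Finset.mem_Icc] at hi
          exact h.pos i hi.1
    omega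
  · intro n hn _ m hm hmn
    rw [hsum m (by omega)]
    simp only [if_neg (show ¬ n ≤ 2 by omega)]
    have := h.le_iff (m - 1) (n - 1) (by omega)
    omega

/-- `a_r(n) = G(n - 1)` for `3 ≤ n ≤ r` -/
theorem FO.eq_golomb {r : ℕ} (hr : 2 ≤ r) {a : ℕ → ℕ} (h : FO r a) {G : ℕ → ℕ} (hG : IsGolomb G)
    (n : ℕ) (hn : 3 ≤ n) (hnr : n ≤ r) : a n = G (n - 1) := by
  have := (h.init hr).unique (hG.init r) n hnr
  rw [this]
  simp only [if_neg (show ¬ n ≤ 2 by omega)]

/-- the threshold set -/
theorem threshold {G : ℕ → ℕ} (hG : IsGolomb G) {r : ℕ} (hr : 2 ≤ r) {a : ℕ → ℕ} (h : FO r a)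
    (k : ℕ) (hk : 4 ≤ k) : (k : ℕ∞) ≤ maxMult a ↔ S G (k - 1) + 2 ≤ r := by
  rw [h.maxMult_iff hr k hk]
  rcases Nat.lt_or_ge r 3 with h3 | h3
  · have h2 : r = 2 := by omega
    subst h2
    rw [h.two hr]
    have h4 : 1 ≤ S G (k - 1) := by
      obtain ⟨q, hq⟩ : ∃ q, k - 1 = q + 1 := ⟨k - 2, by omega⟩
      rw [hq, S_succ]
      have := hG.pos (q + 1) (by omega)
      omega
    omega
  · rw [h.eq_golomb hr hG r h3 le_rfl]
    have := hG.le_iff (k - 1) (r - 1) (by omega)
    omega

/-- Golomb's sequence exists -/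
theorem exists_golomb : ∃ G : ℕ → ℕ, IsGolomb G := by
  -- the limit sequence
  let A : ℕ → ℕ := fun n => ag (n + 2) n
  have hA : ∀ N, 2 ≤ N → ∀ n, n ≤ N → A n = ag N n := by
    intro N hN n hn
    have h1 := (ag_FO (r := n + 2) (by omega)).init (by omega)
    have h2 := (ag_FO hN).init hN
    refine Init.unique (N := n) ⟨h1.zero, h1.one, h1.two, fun m h3 h4 => h1.ge m h3 (by omega),
      fun m h3 h4 => h1.le m h3 (by omega), fun m h3 h4 => h1.iff m h3 (by omega)⟩
      ⟨h2.zero, h2.one, h2.two, fun m h3 h4 => h2.ge m h3 (by omega),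
      fun m h3 h4 => h2.le m h3 (by omega), fun m h3 h4 => h2.iff m h3 (by omega)⟩ n le_rfl
  have hsum : ∀ N, 2 ≤ N → ∀ m, m ≤ N → s N (ag N) m = ∑ j ∈ range (m + 1), A j := by
    intro N hN m hm
    rw [s_eq_sum (by omega) (ag_small N).1 m hm]
    apply Finset.sum_congr rfl
    intro j hj
    rw [Finset.mem_range] at hj
    exact (hA N hN j (by omega)).symm
  have hiff : ∀ m, 3 ≤ m → ∀ n, A n < m ↔ n < ∑ j ∈ range (m + 1), A j := by
    intro m hm n
    have h1 := (ag_FO (r := max m n) (by omega)).lt_iff hm n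
    rw [hsum (max m n) (by omega) m (le_max_left _ _),
      ← hA (max m n) (by omega) n (le_max_right _ _)] at h1
    exact h1
  have hmono : ∀ x y, x ≤ y → A x ≤ A y := by
    intro x y hxy
    rw [hA (max 2 y) (by omega) x (by omega), hA (max 2 y) (by omega) y (by omega)]
    exact ag_mono _ hxy
  have hA0 : A 0 = 0 := (ag_small _).1
  have hA1 : A 1 = 1 := (ag_small _).2.1
  have hA2 : A 2 = 2 := (ag_small _).2.2.1
  have hA3 : A 3 = 2 := (ag_small _).2.2.2
  have hS3 : ∑ j ∈ range (3 + 1), A j = 5 := by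
    simp [Finset.sum_range_succ, hA0, hA1, hA2, hA3]
  refine ⟨fun n => if n ≤ 1 then n else A (n + 1), ?_, ?_, ?_⟩
  · intro n hn
    split_ifs with h
    · exact hn
    · have := hmono 1 (n + 1) (by omega)
      omega
  · intro n hn
    split_ifs with h1 h2 h2
    · omega
    · have : n = 1 := by omega
      subst this
      have := hmono 1 3 (by omega)
      rw [hA1] at this
      exact this
    · omega
    · exact hmono _ _ (by omega)
  · intro n hn
    unfold mult
    rcases Nat.lt_or_ge n 2 with h1 | h1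
    · have : n = 1 := by omega
      subst this
      have hset : {i : ℕ | 1 ≤ i ∧ (if i ≤ 1 then i else A (i + 1)) = 1} = {1} := by
        ext i
        simp only [Set.mem_ofPred_eq, Set.mem_singleton_iff]
        constructor
        · rintro ⟨h2, h3⟩
          split_ifs at h3 with h4
          · exact h3
          · have := hmono 2 (i + 1) (by omega)
            omega
        · rintro rfl
          simp
      simp only [hset, Set.encard_singleton]
      simp
    rcases Nat.lt_or_ge n 3 with h2 | h2
    · have : n = 2 := by omega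
      subst this
      have hset : {i : ℕ | 1 ≤ i ∧ (if i ≤ 1 then i else A (i + 1)) = 2} =
          (↑(Ico 2 4 : Finset ℕ) : Set ℕ) := by
        ext i
        simp only [Set.mem_ofPred_eq, Finset.coe_Ico, Set.mem_Ico]
        have h5 := hiff 3 le_rfl (i + 1)
        rw [hS3] at h5
        have h6 := hmono 2 (i + 1)
        constructor
        · rintro ⟨h2, h3⟩
          split_ifs at h3 with h4 <;> omega
        · rintro ⟨h2, h3⟩
          rw [if_neg (by omega)]
          omega
      simp only [hset, Set.encard_coe_eq_coe_finsetCard]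
      simp [hA3]
    · have hset : {i : ℕ | 1 ≤ i ∧ (if i ≤ 1 then i else A (i + 1)) = n} =
          (↑(Ico (∑ j ∈ range (n + 1), A j - 1) (∑ j ∈ range (n + 1 + 1), A j - 1) : Finset ℕ) :
            Set ℕ) := by
        ext i
        simp only [Set.mem_ofPred_eq, Finset.coe_Ico, Set.mem_Ico]
        have h3 := hiff n h2 (i + 1)
        have h4 := hiff (n + 1) (by omega) (i + 1)
        have h5 : 5 ≤ ∑ j ∈ range (n + 1), A j := by
          rw [← hS3]
          exact Finset.sum_le_sum_of_subset (by
            intro j hj; rw [Finset.mem_range] at hj ⊢; omega)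
        constructor
        · rintro ⟨h6, h7⟩
          split_ifs at h7 with h8 <;> omega
        · rintro ⟨h6, h7⟩
          rw [if_neg (by omega)]
          omega
      simp only [hset, Set.encard_coe_eq_coe_finsetCard, Nat.card_Ico]
      rw [if_neg (by omega)]
      congr 1
      rw [Finset.sum_range_succ A (n + 1)]
      have h5 : 5 ≤ ∑ j ∈ range (n + 1), A j := by
        rw [← hS3]
        exact Finset.sum_le_sum_of_subset (by
          intro j hj; rw [Finset.mem_range] at hj ⊢; omega)
      omega

end Pool.Agent.Q51.AG
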